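import Mathlib

/-!
# MP_922b49_co : uncountably many classes of `(-1,1,t)`-threshold graphs

We show that for `t ≥ 5` and `s > 1` the inclusion `C t ⊆ C s` forces `s = t`.
-/

namespace Pool.Agent.Results.MP_922b49_co.Uncountable

/-- `G` is `(θ₁,…,θ_k)`-threshold: there are ranks with `vw` an edge iff the number of indices
`i` with `θ_i ≤ r_v + r_w` is odd. -/
def IsMultithreshold {k : ℕ} (θ : Fin k → ℝ) {V : Type*} (G : SimpleGraph V) : Prop :=
  ∃ r : V → ℝ, ∀ v w, v ≠ w →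
    (G.Adj v w ↔ Odd (Finset.univ.filter fun i => θ i ≤ r v + r w).card)

/-- The class `C_t` of all finite `(-1,1,t)`-threshold graphs (on vertex sets `Fin n`). -/
def C (t : ℝ) : Set (Σ n : ℕ, SimpleGraph (Fin n)) :=
  {G | IsMultithreshold ![-1, 1, t] G.2}

/-- The window `[-1,1) ∪ [t,∞)` in an ordered field. -/
def Win {K : Type*} [Field K] [LinearOrder K] (t d : K) : Prop :=
  (-1 ≤ d ∧ d < 1) ∨ t ≤ d

section Abstract

variable {K : Type*} [Field K] [LinearOrder K] [IsStrictOrderedRing K]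
variable {t : ℝ} {s : K} {f g : ℝ → K}

/-- Two `E`-edges forming an induced `2K₂` are separated. -/
lemma sep {f1 f2 g1 g2 : K} (_hs : 1 < s) (h11 : -1 ≤ f1 - g1 ∧ f1 - g1 < 1)
    (h22 : -1 ≤ f2 - g2 ∧ f2 - g2 < 1) (h12 : ¬ Win s (f1 - g2)) (h21 : ¬ Win s (f2 - g1))
    (hle : f1 ≤ f2) : f1 < g2 - 1 ∧ g1 + 1 ≤ f2 := by
  unfold Win at h12 h21
  push Not at h12 h21
  obtain ⟨a1, a2⟩ := h11
  obtain ⟨b1, b2⟩ := h22
  constructor
  · by_contra hc
    push Not at hc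
    have := h12.1 (by linarith)
    linarith
  · by_contra hc
    push Not at hc
    by_cases h3 : -1 ≤ f2 - g1
    · have := h21.1 h3
      linarith
    · push Not at h3
      linarith

/-- Three pairwise separated `E`-edges have `f`-spread more than `2`. -/
lemma three {f1 f2 f3 g1 g2 g3 c : K} (hs : 1 < s)
    (h11 : -1 ≤ f1 - g1 ∧ f1 - g1 < 1)
    (h22 : -1 ≤ f2 - g2 ∧ f2 - g2 < 1)
    (h33 : -1 ≤ f3 - g3 ∧ f3 - g3 < 1)
    (h12 : ¬ Win s (f1 - g2)) (h21 : ¬ Win s (f2 - g1))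
    (h13 : ¬ Win s (f1 - g3)) (h31 : ¬ Win s (f3 - g1))
    (h23 : ¬ Win s (f2 - g3)) (h32 : ¬ Win s (f3 - g2))
    (c1 : -1 ≤ f1 - c ∧ f1 - c < 1) (c2 : -1 ≤ f2 - c ∧ f2 - c < 1)
    (c3 : -1 ≤ f3 - c ∧ f3 - c < 1) : False := by
  obtain ⟨c11, c12⟩ := c1
  obtain ⟨c21, c22⟩ := c2
  obtain ⟨c31, c32⟩ := c3
  rcases le_total f1 f2 with a | a <;> rcases le_total f2 f3 with b | b <;>
    rcases le_total f1 f3 with d | d
  · -- f1 ≤ f2 ≤ f3
    have e1 := sep hs h11 h22 h12 h21 a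
    have e2 := sep hs h22 h33 h23 h32 b
    linarith [e1.1, e2.2]
  · have e1 := sep hs h11 h22 h12 h21 a
    have e2 := sep hs h22 h33 h23 h32 b
    linarith [e1.1, e2.2]
  · -- f1 ≤ f3 ≤ f2
    have e1 := sep hs h11 h33 h13 h31 d
    have e2 := sep hs h33 h22 h32 h23 b
    linarith [e1.1, e2.2]
  · -- f3 ≤ f1 ≤ f2
    have e1 := sep hs h33 h11 h31 h13 d
    have e2 := sep hs h11 h22 h12 h21 a
    linarith [e1.1, e2.2]
  · -- f2 ≤ f1 ≤ f3
    have e1 := sep hs h22 h11 h21 h12 a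
    have e2 := sep hs h11 h33 h13 h31 d
    linarith [e1.1, e2.2]
  · -- f2 ≤ f3 ≤ f1
    have e1 := sep hs h22 h33 h23 h32 b
    have e2 := sep hs h33 h11 h31 h13 d
    linarith [e1.1, e2.2]
  · have e1 := sep hs h33 h22 h32 h23 b
    have e2 := sep hs h22 h11 h21 h12 a
    linarith [e1.1, e2.2]
  · have e1 := sep hs h33 h22 h32 h23 b
    have e2 := sep hs h22 h11 h21 h12 a
    linarith [e1.1, e2.2]

/-- Two edges of an induced `2K₂` are not both of type `H`. -/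
lemma noHH {f1 f2 g1 g2 : K} (h11 : s ≤ f1 - g1) (h22 : s ≤ f2 - g2)
    (h12 : ¬ Win s (f1 - g2)) (h21 : ¬ Win s (f2 - g1)) : False := by
  unfold Win at h12 h21
  push Not at h12 h21
  linarith [h12.2, h21.2]

/-- Four pairwise separated edges cannot all be `E`-adjacent to one further vertex. -/
lemma four {f1 f2 f3 f4 g1 g2 g3 g4 c : K} (hs : 1 < s)
    (h11 : Win s (f1 - g1)) (h22 : Win s (f2 - g2)) (h33 : Win s (f3 - g3))
    (h44 : Win s (f4 - g4))
    (h12 : ¬ Win s (f1 - g2)) (h21 : ¬ Win s (f2 - g1))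
    (h13 : ¬ Win s (f1 - g3)) (h31 : ¬ Win s (f3 - g1))
    (h14 : ¬ Win s (f1 - g4)) (h41 : ¬ Win s (f4 - g1))
    (h23 : ¬ Win s (f2 - g3)) (h32 : ¬ Win s (f3 - g2))
    (h24 : ¬ Win s (f2 - g4)) (h42 : ¬ Win s (f4 - g2))
    (h34 : ¬ Win s (f3 - g4)) (h43 : ¬ Win s (f4 - g3))
    (c1 : -1 ≤ f1 - c ∧ f1 - c < 1) (c2 : -1 ≤ f2 - c ∧ f2 - c < 1)
    (c3 : -1 ≤ f3 - c ∧ f3 - c < 1) (c4 : -1 ≤ f4 - c ∧ f4 - c < 1) : False := by
  rcases h11 with e1 | e1
  · rcases h22 with e2 | e2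
    · rcases h33 with e3 | e3
      · exact three hs e1 e2 e3 h12 h21 h13 h31 h23 h32 c1 c2 c3
      · rcases h44 with e4 | e4
        · exact three hs e1 e2 e4 h12 h21 h14 h41 h24 h42 c1 c2 c4
        · exact noHH e3 e4 h34 h43
    · rcases h33 with e3 | e3
      · rcases h44 with e4 | e4
        · exact three hs e1 e3 e4 h13 h31 h14 h41 h34 h43 c1 c3 c4
        · exact noHH e2 e4 h24 h42
      · exact noHH e2 e3 h23 h32
  · rcases h22 with e2 | e2
    · rcases h33 with e3 | e3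
      · rcases h44 with e4 | e4
        · exact three hs e2 e3 e4 h23 h32 h24 h42 h34 h43 c2 c3 c4
        · exact noHH e1 e4 h14 h41
      · exact noHH e1 e3 h13 h31
    · exact noHH e1 e2 h12 h21

/-- The embedding hypothesis. -/
def Emb (t : ℝ) (s : K) (f g : ℝ → K) : Prop :=
  ∀ u v : ℝ, Win t (u - v) ↔ Win s (f u - g v)

lemma wide (h : Emb t s f g) (hs : 1 < s) (ht : 5 ≤ t) (a : ℝ) (c : K)
    (hc : ∀ x : ℝ, a ≤ x → x ≤ a + 33/10 → -1 ≤ f x - c ∧ f x - c < 1) : False := by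
  have key : ∀ x y : ℝ, Win t (x - y) → Win s (f x - g y) := fun x y => (h x y).1
  have key' : ∀ x y : ℝ, ¬ Win t (x - y) → ¬ Win s (f x - g y) := fun x y hn hw => hn ((h x y).2 hw)
  have E : ∀ x : ℝ, Win s (f x - g x) := fun x => key x x (Or.inl (by constructor <;> linarith))
  have N : ∀ x y : ℝ, (x - y < -1 ∨ (1 ≤ x - y ∧ x - y < t)) → ¬ Win s (f x - g y) := by
    intro x y hxy
    apply key'
    rintro (hw | hw)
    · rcases hxy with h1 | h1 <;> linarith [hw.1, hw.2, h1]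
    · rcases hxy with h1 | h1 <;> linarith
  refine four (f1 := f a) (f2 := f (a + 11/10)) (f3 := f (a + 22/10)) (f4 := f (a + 33/10))
    (c := c) hs (E _) (E _) (E _) (E _) ?_ ?_ ?_ ?_ ?_ ?_ ?_ ?_ ?_ ?_ ?_ ?_
    (hc _ (by linarith) (by linarith)) (hc _ (by linarith) (by linarith))
    (hc _ (by linarith) (by linarith)) (hc _ (by linarith) (by linarith))
  · exact N _ _ (Or.inl (by linarith))
  · exact N _ _ (Or.inr ⟨by linarith, by linarith⟩)
  · exact N _ _ (Or.inl (by linarith))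
  · exact N _ _ (Or.inr ⟨by linarith, by linarith⟩)
  · exact N _ _ (Or.inl (by linarith))
  · exact N _ _ (Or.inr ⟨by linarith, by linarith⟩)
  · exact N _ _ (Or.inl (by linarith))
  · exact N _ _ (Or.inr ⟨by linarith, by linarith⟩)
  · exact N _ _ (Or.inl (by linarith))
  · exact N _ _ (Or.inr ⟨by linarith, by linarith⟩)
  · exact N _ _ (Or.inl (by linarith))
  · exact N _ _ (Or.inr ⟨by linarith, by linarith⟩)

lemma nonadj (h : Emb t s f g) {x y : ℝ} (hxy : x - y < -1 ∨ (1 ≤ x - y ∧ x - y < t)) (ht : 5 ≤ t) :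
    (f x - g y < -1 ∨ (1 ≤ f x - g y)) ∧ f x - g y < s := by
  have hn : ¬ Win s (f x - g y) := by
    intro hw
    rcases (h x y).2 hw with hw | hw
    · rcases hxy with h1 | h1 <;> linarith [hw.1, hw.2, h1]
    · rcases hxy with h1 | h1 <;> linarith
  unfold Win at hn
  push Not at hn
  refine ⟨?_, hn.2⟩
  by_cases h1 : -1 ≤ f x - g y
  · exact Or.inr (hn.1 h1)
  · exact Or.inl (not_le.1 h1)

/-- true `E`-pairs have type `E`. -/
lemma typeE (h : Emb t s f g) (hs : 1 < s) (ht : 5 ≤ t) {u v : ℝ} (huv : -1 ≤ u - v)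
    (huv' : u - v < 1) : -1 ≤ f u - g v ∧ f u - g v < 1 := by
  have hw : Win s (f u - g v) := (h u v).1 (Or.inl ⟨huv, huv'⟩)
  rcases hw with hw | hw
  · exact hw
  exfalso
  have hn := nonadj h (x := u) (y := v + 1 - t) (Or.inr ⟨by linarith, by linarith⟩) ht
  refine wide h hs ht (v + 1) (g (v + 1 - t)) ?_
  intro x hx1 hx2
  have h1 := (nonadj h (x := x) (y := v) (Or.inr ⟨by linarith, by linarith⟩) ht).2
  have hlt : f x < f u := by linarith
  have h2 : Win s (f x - g (v + 1 - t)) := (h x _).1 (Or.inr (by linarith))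
  rcases h2 with h2 | h2
  · exact h2
  · exfalso; linarith [hn.2]

/-- step lemma: the sign of an `f`-step equals that of the `g`-step. -/
lemma step (h : Emb t s f g) (hs : 1 < s) (ht : 5 ≤ t) {u δ v δ' : ℝ}
    (h1 : -1 ≤ u - v) (h1' : u - v < 1) (h2 : -1 ≤ u - v - δ') (h2' : u - v - δ' < 1)
    (_h3 : -1 ≤ u + δ - v - δ') (h3' : u + δ - v - δ' < 1) (h4 : 1 ≤ u + δ - v)
    (_h4' : u + δ - v < t) :
    (f u < f (u + δ) ∧ g v < g (v + δ')) ∨ (f (u + δ) < f u ∧ g (v + δ') < g v) := by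
  have e1 := typeE h hs ht (u := u) (v := v) h1 h1'
  have e2 := typeE h hs ht (u := u) (v := v + δ') (by linarith) (by linarith)
  have e3 := typeE h hs ht (u := u + δ) (v := v + δ') (by linarith) (by linarith)
  have n := (nonadj h (x := u + δ) (y := v) (Or.inr ⟨by linarith, by linarith⟩) ht).1
  rcases n with n | n
  · right; constructor <;> linarith [e1.1, e1.2, e2.1, e2.2, e3.1, e3.2]
  · left; constructor <;> linarith [e1.1, e1.2, e2.1, e2.2, e3.1, e3.2]

lemma S_iff_T (h : Emb t s f g) (hs : 1 < s) (ht : 5 ≤ t) {u δ : ℝ} (h0 : 0 < δ) (h2 : δ < 2) :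
    (f u < f (u + δ) ∧ g (u - 1 + δ/2) < g (u - 1 + δ/2 + 1)) ∨
    (f (u + δ) < f u ∧ g (u - 1 + δ/2 + 1) < g (u - 1 + δ/2)) := by
  apply step h hs ht <;> linarith

lemma S1_iff_T1 (h : Emb t s f g) (hs : 1 < s) (ht : 5 ≤ t) {v x : ℝ} (h0 : 0 ≤ x) (h2 : x < 1) :
    (f (v + x) < f (v + x + 1) ∧ g v < g (v + 1)) ∨
    (f (v + x + 1) < f (v + x) ∧ g (v + 1) < g v) := by
  apply step h hs ht <;> linarith

lemma T_local (h : Emb t s f g) (hs : 1 < s) (ht : 5 ≤ t) {v w : ℝ} (hvw : v ≤ w) (hwv : w < v + 1) :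
    g v < g (v + 1) ↔ g w < g (w + 1) := by
  have h1 := S1_iff_T1 h hs ht (v := v) (x := w - v) (by linarith) (by linarith)
  have h2 := S1_iff_T1 h hs ht (v := w) (x := 0) le_rfl (by norm_num)
  have e1 : v + (w - v) = w := by ring
  have e2 : w + (0:ℝ) = w := by ring
  rw [e1] at h1
  rw [e2] at h2
  constructor
  · intro hg
    rcases h1 with h1 | h1
    · rcases h2 with h2 | h2
      · exact h2.2
      · exact absurd h1.1 (not_lt.2 h2.1.le)
    · exact absurd hg (not_lt.2 h1.2.le)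
  · intro hg
    rcases h1 with h1 | h1
    · exact h1.2
    · rcases h2 with h2 | h2
      · exact absurd h2.1 (not_lt.2 h1.1.le)
      · exact absurd hg (not_lt.2 h2.2.le)

lemma T_const_aux (h : Emb t s f g) (hs : 1 < s) (ht : 5 ≤ t) (n : ℕ) :
    ∀ v w : ℝ, v ≤ w → w ≤ v + n / 2 → (g v < g (v + 1) ↔ g w < g (w + 1)) := by
  induction n with
  | zero =>
    intro v w h1 h2
    have : v = w := by
      norm_num at h2
      linarith
    rw [this]
  | succ n ih =>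
    intro v w h1 h2
    push_cast at h2
    by_cases hc : w ≤ v + 1/2
    · exact T_local h hs ht h1 (by linarith)
    · push Not at hc
      rw [T_local h hs ht (v := v) (w := v + 1/2) (by linarith) (by linarith)]
      apply ih <;> linarith

lemma T_const (h : Emb t s f g) (hs : 1 < s) (ht : 5 ≤ t) (v w : ℝ) :
    (g v < g (v + 1) ↔ g w < g (w + 1)) := by
  rcases le_total v w with hvw | hvw
  · obtain ⟨n, hn⟩ := exists_nat_ge (2 * (w - v))
    exact T_const_aux h hs ht n v w hvw (by linarith)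
  · obtain ⟨n, hn⟩ := exists_nat_ge (2 * (v - w))
    exact (T_const_aux h hs ht n w v hvw (by linarith)).symm

lemma T_pos (h : Emb t s f g) (hs : 1 < s) (ht : 5 ≤ t) (v : ℝ) : g v < g (v + 1) := by
  by_contra hc
  have hall : ∀ w, ¬ g w < g (w + 1) := fun w hw => hc ((T_const h hs ht w v).1 hw)
  have hf : ∀ w, f (w + 1) < f w := by
    intro w
    have := S1_iff_T1 h hs ht (v := w) (x := 0) le_rfl (by norm_num)
    rw [add_zero] at this
    rcases this with h1 | h1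
    · exact absurd h1.2 (hall w)
    · exact h1.1
  have hf' : ∀ n : ℕ, f (1 + n) ≤ f 1 := by
    intro n
    induction n with
    | zero => simp
    | succ n ih =>
      have := hf (1 + n)
      push_cast
      rw [← add_assoc]
      exact this.le.trans ih
  have e0 := typeE h hs ht (u := 0) (v := 0) (by norm_num) (by norm_num)
  have n1 := (nonadj h (x := 1) (y := 0) (Or.inr ⟨by linarith, by linarith⟩) ht).1
  have h01 : f 1 < f 0 := by simpa using hf 0
  have n1' : f 1 - g 0 < -1 := by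
    rcases n1 with n1 | n1
    · exact n1
    · linarith [e0.2]
  obtain ⟨n, hn⟩ := exists_nat_ge t
  have hw : Win s (f (1 + n) - g 0) := (h _ _).1 (Or.inr (by linarith))
  have := hf' n
  rcases hw with hw | hw
  · linarith [hw.1]
  · linarith

lemma f_step (h : Emb t s f g) (hs : 1 < s) (ht : 5 ≤ t) {u δ : ℝ} (h0 : 0 < δ) (h2 : δ < 2) :
    f u < f (u + δ) := by
  rcases S_iff_T h hs ht (u := u) h0 h2 with h1 | h1
  · exact h1.1
  · exact absurd (T_pos h hs ht _) (not_lt.2 h1.2.le)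

lemma f_mono_aux (h : Emb t s f g) (hs : 1 < s) (ht : 5 ≤ t) (n : ℕ) :
    ∀ v w : ℝ, v < w → w ≤ v + n → f v < f w := by
  induction n with
  | zero => intro v w h1 h2; norm_num at h2; linarith
  | succ n ih =>
    intro v w h1 h2
    push_cast at h2
    by_cases hc : w ≤ v + 1
    · have := f_step h hs ht (u := v) (δ := w - v) (by linarith) (by linarith)
      rwa [show v + (w - v) = w by ring] at this
    · push Not at hc
      exact (f_step h hs ht (u := v) (δ := 1) (by norm_num) (by norm_num)).trans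
        (ih (v + 1) w hc (by linarith))

lemma f_mono (h : Emb t s f g) (hs : 1 < s) (ht : 5 ≤ t) : StrictMono f := by
  intro v w hvw
  obtain ⟨n, hn⟩ := exists_nat_ge (w - v)
  exact f_mono_aux h hs ht n v w hvw (by linarith)

lemma typeL (h : Emb t s f g) (hs : 1 < s) (ht : 5 ≤ t) {u v : ℝ} (huv : u - v < -1) :
    f u - g v < -1 := by
  have e := typeE h hs ht (u := v - 1) (v := v) (by linarith) (by linarith)
  have m := f_mono h hs ht (show u < v - 1 by linarith)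
  rcases (nonadj h (x := u) (y := v) (Or.inl huv) ht).1 with n | n
  · exact n
  · linarith [e.2]

lemma typeM (h : Emb t s f g) (hs : 1 < s) (ht : 5 ≤ t) {u v : ℝ} (huv : 1 ≤ u - v)
    (huv' : u - v < t) : 1 ≤ f u - g v ∧ f u - g v < s := by
  have e := typeE h hs ht (u := v) (v := v) (by linarith) (by linarith)
  have m := f_mono h hs ht (show v < u by linarith)
  have n := nonadj h (x := u) (y := v) (Or.inr ⟨huv, huv'⟩) ht
  refine ⟨?_, n.2⟩
  rcases n.1 with n | n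
  · linarith [e.1]
  · exact n

lemma typeH (h : Emb t s f g) (hs : 1 < s) (ht : 5 ≤ t) {u v : ℝ} (huv : t ≤ u - v) :
    s ≤ f u - g v := by
  have e := typeM h hs ht (u := v + 1) (v := v) (by linarith) (by linarith)
  have m := f_mono h hs ht (show v + 1 < u by linarith)
  have w : Win s (f u - g v) := (h u v).1 (Or.inr huv)
  rcases w with w | w
  · linarith [e.1, w.2]
  · exact w

lemma P1 (h : Emb t s f g) (hs : 1 < s) (ht : 5 ≤ t) {ε : ℝ} (hε : 0 < ε) (n : ℕ) (u : ℝ) :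
    f u + 2 * n ≤ f (u + n * (2 + ε)) := by
  induction n with
  | zero => simp
  | succ n ih =>
    set w := u + n * (2 + ε) with hw
    have a := typeL h hs ht (u := w) (v := w + 1 + ε) (by linarith)
    have b := (typeM h hs ht (u := w + 2 + ε) (v := w + 1 + ε) (by linarith) (by linarith)).1
    have e : u + ((n + 1 : ℕ) : ℝ) * (2 + ε) = w + 2 + ε := by rw [hw]; push_cast; ring
    rw [e]
    push_cast
    linarith

lemma P2 (h : Emb t s f g) (hs : 1 < s) (ht : 5 ≤ t) {ε : ℝ} (hε : 0 < ε) (hε2 : ε < 2)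
    (n : ℕ) (u : ℝ) :
    f (u + n * (2 - ε)) ≤ f u + 2 * n := by
  induction n with
  | zero => simp
  | succ n ih =>
    set w := u + n * (2 - ε) with hw
    have a := (typeE h hs ht (u := w) (v := w + 1) (by linarith) (by linarith)).1
    have b := (typeE h hs ht (u := w + 2 - ε) (v := w + 1) (by linarith) (by linarith)).2
    have e : u + ((n + 1 : ℕ) : ℝ) * (2 - ε) = w + 2 - ε := by rw [hw]; push_cast; ring
    rw [e]
    push_cast
    linarith

lemma P3 (h : Emb t s f g) (hs : 1 < s) (ht : 5 ≤ t) {ε : ℝ} (hε : 0 < ε) (n : ℕ) (u : ℝ) :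
    f u + n * (s + 1) ≤ f (u + n * (t + 1 + ε)) := by
  induction n with
  | zero => simp
  | succ n ih =>
    set w := u + n * (t + 1 + ε) with hw
    have a := typeL h hs ht (u := w) (v := w + 1 + ε) (by linarith)
    have b := typeH h hs ht (u := w + t + 1 + ε) (v := w + 1 + ε) (by linarith)
    have e : u + ((n + 1 : ℕ) : ℝ) * (t + 1 + ε) = w + t + 1 + ε := by rw [hw]; push_cast; ring
    rw [e]
    push_cast
    linarith

lemma P4 (h : Emb t s f g) (hs : 1 < s) (ht : 5 ≤ t) {ε : ℝ} (hε : 0 < ε) (hε2 : ε < 2)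
    (n : ℕ) (u : ℝ) :
    f (u + n * (t + 1 - ε)) ≤ f u + n * (s + 1) := by
  induction n with
  | zero => simp
  | succ n ih =>
    set w := u + n * (t + 1 - ε) with hw
    have a := (typeE h hs ht (u := w) (v := w + 1) (by linarith) (by linarith)).1
    have b := (typeM h hs ht (u := w + t + 1 - ε) (v := w + 1) (by linarith) (by linarith)).2
    have e : u + ((n + 1 : ℕ) : ℝ) * (t + 1 - ε) = w + t + 1 - ε := by rw [hw]; push_cast; ring
    rw [e]
    push_cast
    linarith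

lemma cut1 (h : Emb t s f g) (hs : 1 < s) (ht : 5 ≤ t) {m n : ℕ}
    (hmn : 2 * (m : ℝ) < n * (t + 1)) : 2 * (m : K) ≤ n * (s + 1) := by
  -- choose ε
  have hpos : (0:ℝ) < m + n + 1 := by positivity
  obtain ⟨ε, hε0, hε⟩ : ∃ ε : ℝ, 0 < ε ∧ ε * (m + n + 1) < min (n * (t + 1) - 2 * m) 1 := by
    have hmin : 0 < min (n * (t + 1) - 2 * (m:ℝ)) 1 := lt_min (by linarith) one_pos
    refine ⟨min (n * (t + 1) - 2 * (m:ℝ)) 1 / (2 * (m + n + 1)), by positivity, ?_⟩
    rw [div_mul_eq_mul_div, div_lt_iff₀ (by positivity)]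
    nlinarith
  have hε1 := hε.trans_le (min_le_left _ _)
  have hε2 := hε.trans_le (min_le_right _ _)
  have hm0 : (0:ℝ) ≤ m := Nat.cast_nonneg _
  have hn0 : (0:ℝ) ≤ n := Nat.cast_nonneg _
  have hε3 : ε < 2 := by nlinarith
  have a := P1 h hs ht hε0 m 0
  have b := P4 h hs ht hε0 hε3 n 0
  have c := f_mono h hs ht (show (0:ℝ) + m * (2 + ε) < 0 + n * (t + 1 - ε) by nlinarith)
  linarith

lemma cut2 (h : Emb t s f g) (hs : 1 < s) (ht : 5 ≤ t) {m n : ℕ}
    (hmn : n * (t + 1) < 2 * (m : ℝ)) : n * (s + 1) ≤ 2 * (m : K) := by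
  have hpos : (0:ℝ) < m + n + 1 := by positivity
  obtain ⟨ε, hε0, hε⟩ : ∃ ε : ℝ, 0 < ε ∧ ε * (m + n + 1) < min (2 * m - n * (t + 1)) 1 := by
    have hmin : 0 < min (2 * (m:ℝ) - n * (t + 1)) 1 := lt_min (by linarith) one_pos
    refine ⟨min (2 * (m:ℝ) - n * (t + 1)) 1 / (2 * (m + n + 1)), by positivity, ?_⟩
    rw [div_mul_eq_mul_div, div_lt_iff₀ (by positivity)]
    nlinarith
  have hε1 := hε.trans_le (min_le_left _ _)
  have hε2 := hε.trans_le (min_le_right _ _)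
  have hm0 : (0:ℝ) ≤ m := Nat.cast_nonneg _
  have hn0 : (0:ℝ) ≤ n := Nat.cast_nonneg _
  have hε3 : ε < 2 := by nlinarith
  have a := P3 h hs ht hε0 n 0
  have b := P2 h hs ht hε0 hε3 m 0
  have c := f_mono h hs ht (show (0:ℝ) + n * (t + 1 + ε) < 0 + m * (2 - ε) by nlinarith)
  linarith

end Abstract

/-- With `θ = (-1,1,t)`, `t > 1`, the parity condition is the window `[-1,1) ∪ [t,∞)`. -/
lemma odd_iff {t : ℝ} (ht : 1 < t) (d : ℝ) :
    Odd (Finset.univ.filter fun i => (![-1, 1, t] : Fin 3 → ℝ) i ≤ d).card ↔ Win t d := by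
  rw [Finset.card_filter, Fin.sum_univ_three]
  unfold Win
  by_cases h1 : -1 ≤ d
  · by_cases h2 : 1 ≤ d
    · by_cases h3 : t ≤ d
      · simp [h1, h2, h3]; decide
      · have h4 : ¬ d < 1 := not_lt.2 h2
        simp [h1, h2, h3]
        exact ⟨fun h => absurd h (by decide), fun h => absurd h h4⟩
    · have h3 : ¬ t ≤ d := by linarith
      simp [h1, h2, h3]
      linarith
  · have h2 : ¬ 1 ≤ d := by linarith
    have h3 : ¬ t ≤ d := by linarith
    simp [h1, h2, h3]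

lemma mem_C {t : ℝ} (ht : 1 < t) (G : Σ n : ℕ, SimpleGraph (Fin n)) :
    G ∈ C t ↔ ∃ r : Fin G.1 → ℝ, ∀ v w, v ≠ w → (G.2.Adj v w ↔ Win t (r v + r w)) := by
  unfold C IsMultithreshold
  simp only [Set.mem_ofPred_eq, odd_iff ht]

/-- The infinite split graph: a clique of left copies of reals, an independent set of right copies,
and `u ~ v` iff `u - v ∈ [-1,1) ∪ [t,∞)`. -/
def Big (t : ℝ) : SimpleGraph (ℝ ⊕ ℝ) where
  Adj x y := match x, y with
    | Sum.inl u, Sum.inl u' => u ≠ u'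
    | Sum.inr _, Sum.inr _ => False
    | Sum.inl u, Sum.inr v => Win t (u - v)
    | Sum.inr v, Sum.inl u => Win t (u - v)
  symm := ⟨by
    rintro (x | x) (y | y) h
    · exact fun e => h e.symm
    · exact h
    · exact h
    · exact h⟩
  loopless := ⟨by
    rintro (x | x) h
    · exact h rfl
    · exact h⟩

/-- The rank of a vertex of the big graph (with a large shift `M`). -/
def rk (M : ℝ) : ℝ ⊕ ℝ → ℝ
  | Sum.inl u => u + M
  | Sum.inr v => -v - M

/-- absolute value of the label -/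
def lab : ℝ ⊕ ℝ → ℝ
  | Sum.inl u => |u|
  | Sum.inr v => |v|

/-- The induced subgraph of `Big t` on a finite set, transported to `Fin n`. -/
noncomputable def sub (t : ℝ) (F : Finset (ℝ ⊕ ℝ)) : Σ n : ℕ, SimpleGraph (Fin n) :=
  ⟨F.card, (Big t).comap fun i => ((F.equivFin.symm i : F) : ℝ ⊕ ℝ)⟩

lemma big_adj_rk {t : ℝ} (ht : 1 < t) {B : ℝ} (x y : ℝ ⊕ ℝ) (hne : x ≠ y) (hi : lab x ≤ B)
    (hj : lab y ≤ B) :
    (Big t).Adj x y ↔ Win t (rk (B + t + 1) x + rk (B + t + 1) y) := by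
  rcases x with x | x <;> rcases y with y | y
  · have h1 : |x| ≤ B := hi
    have h2 : |y| ≤ B := hj
    have h3 := neg_abs_le x
    have h4 := neg_abs_le y
    constructor
    · intro _
      right
      simp only [rk]
      linarith
    · intro _
      show x ≠ y
      intro e
      exact hne (by rw [e])
  · show Win t (x - y) ↔ _
    have : rk (B + t + 1) (Sum.inl x) + rk (B + t + 1) (Sum.inr y) = x - y := by
      simp only [rk]; ring
    rw [this]
  · show Win t (y - x) ↔ _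
    have : rk (B + t + 1) (Sum.inr x) + rk (B + t + 1) (Sum.inl y) = y - x := by
      simp only [rk]; ring
    rw [this]
  · have h1 : |x| ≤ B := hi
    have h2 : |y| ≤ B := hj
    have h3 := neg_abs_le x
    have h4 := neg_abs_le y
    constructor
    · intro h
      exact False.elim h
    · intro h
      exfalso
      simp only [rk, Win] at h
      rcases h with h | h
      · linarith [h.1]
      · linarith

lemma sub_mem {t : ℝ} (ht : 1 < t) (F : Finset (ℝ ⊕ ℝ)) : sub t F ∈ C t := by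
  rw [mem_C ht]
  have hlab : ∀ x, 0 ≤ lab x := by rintro (x | x) <;> exact abs_nonneg _
  have hle : ∀ x ∈ F, lab x ≤ ∑ x ∈ F, lab x :=
    fun x hx => Finset.single_le_sum (fun y _ => hlab y) hx
  refine ⟨fun i => rk (∑ x ∈ F, lab x + t + 1) ((F.equivFin.symm i : F) : ℝ ⊕ ℝ), ?_⟩
  intro i j hij
  have hne : ((F.equivFin.symm i : F) : ℝ ⊕ ℝ) ≠ ((F.equivFin.symm j : F) : ℝ ⊕ ℝ) := by
    intro h
    exact hij (F.equivFin.symm.injective (Subtype.ext h))
  exact big_adj_rk ht _ _ hne (hle _ (F.equivFin.symm i).2) (hle _ (F.equivFin.symm j).2)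

open Filter

/-- Compactness: if `C t ⊆ C s` then the infinite graph has ranks in an ultrapower of `ℝ`. -/
lemma exists_emb {t s : ℝ} (ht : 1 < t) (hs : 1 < s) (hsub : C t ⊆ C s) :
    ∃ (φ : Ultrafilter (Finset (ℝ ⊕ ℝ))) (f g : ℝ → Germ (φ : Filter (Finset (ℝ ⊕ ℝ))) ℝ),
      Emb t (↑s : Germ (φ : Filter (Finset (ℝ ⊕ ℝ))) ℝ) f g := by
  have hF : ∀ F : Finset (ℝ ⊕ ℝ), ∃ r : ℝ ⊕ ℝ → ℝ, ∀ x ∈ F, ∀ y ∈ F, x ≠ y →
      ((Big t).Adj x y ↔ Win s (r x + r y)) := by
    intro F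
    obtain ⟨r, hr⟩ := (mem_C hs _).1 (hsub (sub_mem ht F))
    classical
    refine ⟨fun x => if h : x ∈ F then r (F.equivFin ⟨x, h⟩) else 0, ?_⟩
    intro x hx y hy hxy
    simp only [hx, hy, dif_pos]
    rw [← hr]
    · change _ ↔ (Big t).Adj _ _
      simp
    · intro e
      have := F.equivFin.injective e
      exact hxy (congrArg Subtype.val this)
  choose r hr using hF
  obtain ⟨φ, hφ⟩ : ∃ φ : Ultrafilter (Finset (ℝ ⊕ ℝ)),
      (φ : Filter (Finset (ℝ ⊕ ℝ))) ≤ atTop := ⟨Ultrafilter.of atTop, Ultrafilter.of_le _⟩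
  refine ⟨φ, fun u => ((fun F => r F (Sum.inl u) : Finset (ℝ ⊕ ℝ) → ℝ) : Germ (φ : Filter (Finset (ℝ ⊕ ℝ))) ℝ),
    fun v => ((fun F => - r F (Sum.inr v) : Finset (ℝ ⊕ ℝ) → ℝ) : Germ (φ : Filter (Finset (ℝ ⊕ ℝ))) ℝ), ?_⟩
  intro u v
  have hev : ∀ᶠ F in (φ : Filter (Finset (ℝ ⊕ ℝ))), (Win t (u - v) ↔
      Win s (r F (Sum.inl u) + r F (Sum.inr v))) := by
    apply hφ
    have h1 : ∀ᶠ F : Finset (ℝ ⊕ ℝ) in atTop, ({Sum.inl u, Sum.inr v} : Finset (ℝ ⊕ ℝ)) ≤ F :=
      eventually_ge_atTop _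
    filter_upwards [h1] with F hF
    have hu : (Sum.inl u : ℝ ⊕ ℝ) ∈ F := hF (by simp)
    have hv : (Sum.inr v : ℝ ⊕ ℝ) ∈ F := hF (by simp)
    exact hr F _ hu _ hv (by simp)
  have hd : ((fun F => r F (Sum.inl u) : Finset (ℝ ⊕ ℝ) → ℝ) : Germ (φ : Filter (Finset (ℝ ⊕ ℝ))) ℝ) -
      ((fun F => - r F (Sum.inr v) : Finset (ℝ ⊕ ℝ) → ℝ) : Germ (φ : Filter (Finset (ℝ ⊕ ℝ))) ℝ) =
      ((fun F => r F (Sum.inl u) + r F (Sum.inr v) : Finset (ℝ ⊕ ℝ) → ℝ) :
        Germ (φ : Filter (Finset (ℝ ⊕ ℝ))) ℝ) := by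
    rw [← Germ.coe_sub]
    congr 1
    funext F
    simp
  have hwin : Win (↑s : Germ (φ : Filter (Finset (ℝ ⊕ ℝ))) ℝ)
      ((fun F => r F (Sum.inl u) + r F (Sum.inr v) : Finset (ℝ ⊕ ℝ) → ℝ) :
        Germ (φ : Filter (Finset (ℝ ⊕ ℝ))) ℝ) ↔
      ∀ᶠ F in (φ : Filter (Finset (ℝ ⊕ ℝ))), Win s (r F (Sum.inl u) + r F (Sum.inr v)) := by
    unfold Win
    rw [Ultrafilter.eventually_or, eventually_and]
    have e1 : (-1 : Germ (φ : Filter (Finset (ℝ ⊕ ℝ))) ℝ) =
        ((fun _ => (-1 : ℝ) : Finset (ℝ ⊕ ℝ) → ℝ) : Germ (φ : Filter (Finset (ℝ ⊕ ℝ))) ℝ) := rfl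
    have e2 : (1 : Germ (φ : Filter (Finset (ℝ ⊕ ℝ))) ℝ) =
        ((fun _ => (1 : ℝ) : Finset (ℝ ⊕ ℝ) → ℝ) : Germ (φ : Filter (Finset (ℝ ⊕ ℝ))) ℝ) := rfl
    have e3 : (↑s : Germ (φ : Filter (Finset (ℝ ⊕ ℝ))) ℝ) =
        ((fun _ => s : Finset (ℝ ⊕ ℝ) → ℝ) : Germ (φ : Filter (Finset (ℝ ⊕ ℝ))) ℝ) := rfl
    rw [e1, e3, Germ.coe_le, Germ.coe_le]
    have e4 : (((fun F => r F (Sum.inl u) + r F (Sum.inr v) : Finset (ℝ ⊕ ℝ) → ℝ) :
        Germ (φ : Filter (Finset (ℝ ⊕ ℝ))) ℝ) < 1 ↔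
      ∀ᶠ F in (φ : Filter (Finset (ℝ ⊕ ℝ))), r F (Sum.inl u) + r F (Sum.inr v) < 1) := by
      rw [e2, Germ.coe_lt]
    rw [e4]
    rfl
  rw [hd, hwin]
  constructor
  · intro hw
    filter_upwards [hev] with F hF
    exact hF.1 hw
  · intro hw
    obtain ⟨F, hF1, hF2⟩ := (hev.and hw).exists
    exact hF1.2 hF2

/-- **Rigidity.** -/
theorem rigid {t s : ℝ} (hs : 1 < s) (ht : 5 ≤ t) (hsub : C t ⊆ C s) : s = t := by
  obtain ⟨φ, f, g, h⟩ := exists_emb (by linarith) hs hsub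
  have hs' : (1 : Germ (φ : Filter (Finset (ℝ ⊕ ℝ))) ℝ) < (↑s : Germ (φ : Filter (Finset (ℝ ⊕ ℝ))) ℝ) :=
    Germ.const_lt hs
  have hc : ∀ m n : ℕ, ((n : Germ (φ : Filter (Finset (ℝ ⊕ ℝ))) ℝ) *
      ((↑s : Germ (φ : Filter (Finset (ℝ ⊕ ℝ))) ℝ) + 1) ≤ 2 * (m : Germ (φ : Filter (Finset (ℝ ⊕ ℝ))) ℝ)) ↔
      (n : ℝ) * (s + 1) ≤ 2 * m := by
    intro m n
    exact Germ.const_le_iff (l := (φ : Filter (Finset (ℝ ⊕ ℝ)))) (x := (n : ℝ) * (s + 1))
      (y := 2 * (m : ℝ))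
  have hc' : ∀ m n : ℕ, (2 * (m : Germ (φ : Filter (Finset (ℝ ⊕ ℝ))) ℝ) ≤
      (n : Germ (φ : Filter (Finset (ℝ ⊕ ℝ))) ℝ) * ((↑s : Germ (φ : Filter (Finset (ℝ ⊕ ℝ))) ℝ) + 1)) ↔
      2 * (m : ℝ) ≤ (n : ℝ) * (s + 1) := by
    intro m n
    exact Germ.const_le_iff (l := (φ : Filter (Finset (ℝ ⊕ ℝ)))) (x := 2 * (m : ℝ))
      (y := (n : ℝ) * (s + 1))
  -- a positive rational strictly between two positive reals
  have hq : ∀ a b : ℝ, 0 < a → a < b → ∃ m n : ℕ, (n : ℝ) * a < m ∧ (m : ℝ) < n * b := by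
    intro a b ha hab
    obtain ⟨q, hq1, hq2⟩ := exists_rat_btwn hab
    have hq0 : 0 < q := by
      have : (0:ℝ) < q := ha.trans hq1
      exact_mod_cast this
    refine ⟨q.num.toNat, q.den, ?_, ?_⟩
    · have hnum : ((q.num.toNat : ℕ) : ℝ) = q * q.den := by
        have h1 : ((q.num.toNat : ℕ) : ℤ) = q.num := Int.toNat_of_nonneg (Rat.num_nonneg.2 hq0.le)
        have h2 : (q.num : ℝ) = q * q.den := by
          have := Rat.mul_den_eq_num q
          have h3 : ((q * q.den : ℚ) : ℝ) = ((q.num : ℚ) : ℝ) := by rw [this]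
          push_cast at h3
          exact h3.symm
        rw [← h2]
        exact_mod_cast congrArg (Int.cast : ℤ → ℝ) h1
      rw [hnum, mul_comm]
      have : (0:ℝ) < q.den := by exact_mod_cast q.den_pos
      exact mul_lt_mul_of_pos_right hq1 this
    · have hnum : ((q.num.toNat : ℕ) : ℝ) = q * q.den := by
        have h1 : ((q.num.toNat : ℕ) : ℤ) = q.num := Int.toNat_of_nonneg (Rat.num_nonneg.2 hq0.le)
        have h2 : (q.num : ℝ) = q * q.den := by
          have := Rat.mul_den_eq_num q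
          have h3 : ((q * q.den : ℚ) : ℝ) = ((q.num : ℚ) : ℝ) := by rw [this]
          push_cast at h3
          exact h3.symm
        rw [← h2]
        exact_mod_cast congrArg (Int.cast : ℤ → ℝ) h1
      rw [hnum, mul_comm (q.den : ℝ) b]
      have : (0:ℝ) < q.den := by exact_mod_cast q.den_pos
      exact mul_lt_mul_of_pos_right hq2 this
  by_contra hne
  rcases lt_or_gt_of_ne hne with hlt | hlt
  · obtain ⟨m, n, h1, h2⟩ := hq ((s+1)/2) ((t+1)/2) (by linarith) (by linarith)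
    have := (hc' m n).1 (cut1 h hs' ht (m := m) (n := n) (by linarith))
    linarith
  · obtain ⟨m, n, h1, h2⟩ := hq ((t+1)/2) ((s+1)/2) (by linarith) (by linarith)
    have := (hc m n).1 (cut2 h hs' ht (m := m) (n := n) (by linarith))
    linarith

/-- **MP_922b49_co, Q1: yes.**  There are continuum many pairwise distinct classes `C_t`, `t > 1`;
in fact any two classes `C_s`, `C_t` with `s, t ≥ 5`, `s ≠ t` are incomparable under inclusion, and
`C_t ⊆ C_s` with `t ≥ 5`, `s > 1` forces `s = t`. -/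
theorem result :
    (¬ (C '' Set.Ioi (1 : ℝ)).Countable) ∧
    Cardinal.mk (C '' Set.Ioi (1 : ℝ)) = Cardinal.continuum ∧
    (∀ s t : ℝ, 1 < s → 5 ≤ t → C t ⊆ C s → s = t) := by
  have hinj : Set.InjOn C (Set.Ici (5 : ℝ)) := by
    intro a ha b hb hab
    have hb' : (5:ℝ) ≤ b := hb
    exact (rigid (t := a) (s := b) (by linarith) ha hab.le).symm
  have hsub : C '' Set.Ici (5 : ℝ) ⊆ C '' Set.Ioi (1 : ℝ) := by
    apply Set.image_mono
    intro x hx
    have hx' : (5:ℝ) ≤ x := hx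
    show (1:ℝ) < x
    linarith
  have hcard : Cardinal.mk (C '' Set.Ioi (1 : ℝ)) = Cardinal.continuum := by
    apply le_antisymm
    · have := Cardinal.mk_image_le (f := C) (s := Set.Ioi (1 : ℝ))
      rwa [Cardinal.mk_Ioi_real] at this
    · have h1 := Cardinal.mk_le_mk_of_subset hsub
      rw [Cardinal.mk_image_eq_of_injOn _ _ hinj, Cardinal.mk_Ici_real] at h1
      exact h1
  refine ⟨?_, hcard, fun s t hs ht h => rigid hs ht h⟩
  intro hc
  have h1 := (Set.countable_coe_iff.2 hc)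
  have h2 := Cardinal.mk_le_aleph0_iff.2 h1
  rw [hcard] at h2
  exact absurd h2 (not_le.2 Cardinal.aleph0_lt_continuum)

end Pool.Agent.Results.MP_922b49_co.Uncountable
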